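import Pool.Agent.H29.DW.Targets
import Pool.Agent.H26.THC.SP
import Pool.Agent.H60.GLB.CG

/-!
# (SG) the local component of a Hecke character at the primes dividing `k`
-/

set_option autoImplicit false

open NumberField NumberField.InfinitePlace NumberField.Units
  NumberField.Units.dirichletUnitTheorem MeasureTheory Set Filter Complex
open scoped nonZeroDivisors ENNReal

namespace Pool.Agent.H51.DW

open Pool.Agent.H28.RC (Rep ft idl T_ID)
open Pool.Agent.H25.HK Pool.Agent.H23.LB Pool.Agent.H23.LC Pool.Agent.H29.DW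
open Pool.Agent.H29.TC (GK fk fk_le dvs Gn MC LC cq)
open Pool.Agent.H26.THC (isUnit_of_sup sup_of_isUnit ph_mul0 norm_ph0 ph_conj0 gn_mono gn_unique
  cq_eq gk_sup)

section

variable {K : Type} [Field K] [NumberField K] {f : Ideal (𝓞 K)}

/-- the multiplicative function of a Hecke character on the nonzero elements -/
noncomputable def E0 (χ : HG K f) (a : 𝓞 K) : ℂ :=
  (starRingEnd ℂ) (ag χ.k (a : K)) * (starRingEnd ℂ) (ph χ.ν (a : K)) * χ.ψ (Ideal.span {a})

open scoped Classical in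
/-- the multiplicative function of a Hecke character on the elements -/
noncomputable def E1 (χ : HG K f) (a : 𝓞 K) : ℂ := if a = 0 then 0 else E0 χ a

theorem E1_eq (χ : HG K f) {a : 𝓞 K} (h : a ≠ 0) : E1 χ a = E0 χ a := by
  unfold E1
  rw [if_neg h]

theorem E1_zero (χ : HG K f) : E1 χ 0 = 0 := by
  unfold E1
  rw [if_pos rfl]

theorem ag_conj (hAG : U_AG) (k : InfinitePlace K → ℤ) {x : K} (hx : x ≠ 0) :
    ag k x * (starRingEnd ℂ) (ag k x) = 1 := by
  rw [mul_conj, normSq_eq_norm_sq, (hAG K k).2.1 x hx]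
  simp

theorem E0_mul (hAG : U_AG) (χ : HG K f) {a b : 𝓞 K} (ha : a ≠ 0) (hb : b ≠ 0) :
    E0 χ (a * b) = E0 χ a * E0 χ b := by
  unfold E0
  have ha' : (a : K) ≠ 0 := RingOfIntegers.coe_ne_zero_iff.mpr ha
  have hb' : (b : K) ≠ 0 := RingOfIntegers.coe_ne_zero_iff.mpr hb
  have h1 : ((a * b : 𝓞 K) : K) = (a : K) * (b : K) := map_mul (algebraMap (𝓞 K) K) a b
  rw [h1, (hAG K χ.k).1 _ _ ha' hb', ph_mul0 χ.ν ha' hb', map_mul, map_mul,
    ← Ideal.span_singleton_mul_span_singleton, χ.map_mul]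
  ring

theorem E0_princ (hAG : U_AG) (χ : HG K f) {a : 𝓞 K} (ha : a ≠ 0) (h : a - 1 ∈ f) :
    E0 χ a = 1 := by
  unfold E0
  rw [χ.princ a ha h]
  have h1 := ag_conj hAG χ.k (RingOfIntegers.coe_ne_zero_iff.mpr ha)
  have h2 := ph_conj0 χ.ν (a : K)
  linear_combination h1 + (ag χ.k (a : K) * (starRingEnd ℂ) (ag χ.k (a : K))) * h2

theorem E1_mul (hAG : U_AG) (χ : HG K f) (a b : 𝓞 K) : E1 χ (a * b) = E1 χ a * E1 χ b := by
  by_cases ha : a = 0
  · rw [ha, zero_mul, E1_zero, zero_mul]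
  by_cases hb : b = 0
  · rw [hb, mul_zero, E1_zero, mul_zero]
  rw [E1_eq χ ha, E1_eq χ hb, E1_eq χ (mul_ne_zero ha hb), E0_mul hAG χ ha hb]

theorem E1_one (hAG : U_AG) (χ : HG K f) : E1 χ 1 = 1 := by
  rw [E1_eq χ one_ne_zero]
  exact E0_princ hAG χ one_ne_zero (by rw [sub_self]; exact zero_mem f)

theorem E1_of_not (χ : HG K f) {a : 𝓞 K} (h : Ideal.span {a} ⊔ f ≠ ⊤) : E1 χ a = 0 := by
  by_cases ha : a = 0
  · rw [ha, E1_zero]
  · rw [E1_eq χ ha]
    unfold E0
    rw [χ.eq_zero _ h, mul_zero]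

theorem E1_norm_le (hAG : U_AG) (χ : HG K f) (a : 𝓞 K) : ‖E1 χ a‖ ≤ 1 := by
  by_cases ha : a = 0
  · rw [ha, E1_zero, norm_zero]
    exact zero_le_one
  by_cases h : Ideal.span {a} ⊔ f = ⊤
  · rw [E1_eq χ ha]
    unfold E0
    have h1 : Ideal.span {a} ≠ ⊥ := by
      rw [Ne, Ideal.span_singleton_eq_bot]
      exact ha
    rw [norm_mul, norm_mul, RCLike.norm_conj,
      (hAG K χ.k).2.1 _ (RingOfIntegers.coe_ne_zero_iff.mpr ha), one_mul, RCLike.norm_conj,
      norm_ph0, one_mul, χ.norm_one _ h1 h]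
  · rw [E1_of_not χ h, norm_zero]
    exact zero_le_one

theorem E1_congr (hAG : U_AG) (χ : HG K f) (hft : f ≠ ⊤) {a b : 𝓞 K} (h : a - b ∈ f) :
    E1 χ a = E1 χ b := by
  have hmk : Ideal.Quotient.mk f a = Ideal.Quotient.mk f b := Ideal.Quotient.eq.mpr h
  have h1f : (1 : 𝓞 K) ∉ f := fun h1 => hft ((Ideal.eq_top_iff_one f).mpr h1)
  by_cases ha : Ideal.span {a} ⊔ f = ⊤
  · have hua := isUnit_of_sup f a ha
    have hub : IsUnit (Ideal.Quotient.mk f b) := by rw [← hmk]; exact hua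
    obtain ⟨q, hq⟩ := hua.exists_left_inv
    obtain ⟨c, rfl⟩ := Ideal.Quotient.mk_surjective q
    rw [← map_mul, ← map_one (Ideal.Quotient.mk f), Ideal.Quotient.eq] at hq
    have hc0 : c ≠ 0 := by
      rintro rfl
      apply h1f
      have : (1 : 𝓞 K) = -(0 * a - 1) := by ring
      rw [this]
      exact neg_mem hq
    have ha0 : a ≠ 0 := by
      rintro rfl
      apply h1f
      have : (1 : 𝓞 K) = -(c * 0 - 1) := by ring
      rw [this]
      exact neg_mem hq
    have hq' : c * b - 1 ∈ f := by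
      have : c * b - 1 = (c * a - 1) - c * (a - b) := by ring
      rw [this]
      exact sub_mem hq (Ideal.mul_mem_left _ _ h)
    have hb0 : b ≠ 0 := by
      rintro rfl
      apply h1f
      have : (1 : 𝓞 K) = -(c * 0 - 1) := by ring
      rw [this]
      exact neg_mem hq'
    have e1 : E0 χ c * E0 χ a = 1 := by
      rw [← E0_mul hAG χ hc0 ha0]
      exact E0_princ hAG χ (mul_ne_zero hc0 ha0) hq
    have e2 : E0 χ c * E0 χ b = 1 := by
      rw [← E0_mul hAG χ hc0 hb0]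
      exact E0_princ hAG χ (mul_ne_zero hc0 hb0) hq'
    rw [E1_eq χ ha0, E1_eq χ hb0]
    have hne : E0 χ c ≠ 0 := left_ne_zero_of_mul_eq_one e1
    exact mul_left_cancel₀ hne (e1.trans e2.symm)
  · have hb : Ideal.span {b} ⊔ f ≠ ⊤ := by
      intro hb
      apply ha
      apply sup_of_isUnit
      rw [hmk]
      exact isUnit_of_sup f b hb
    rw [E1_of_not χ ha, E1_of_not χ hb]

end

theorem pf_SG (hAG : U_AG) : V_SG := by
  have hCG : U_CG := Pool.Agent.H60.GLB.pf_CG hAG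
  have hID : T_ID := Pool.Agent.H92.RC.pf_ID
  intro K _ _ l g k hG χ hP
  have hk2 : k ^ 2 ≠ ⊥ := pow_ne_zero 2 hG.k_ne
  have hf1 : g * k ^ 2 ≠ ⊥ := mul_ne_zero hG.g_ne hk2
  have hf : fk l g k ≠ ⊥ := mul_ne_zero hG.l_ne hf1
  have hff1 : fk l g k ≤ g * k ^ 2 := Ideal.mul_le_right
  have hfl : fk l g k ≤ l := Ideal.mul_le_left
  have hf1k : g * k ^ 2 ≤ k := Ideal.mul_le_right.trans (Ideal.pow_le_self two_ne_zero)
  have hf1t : g * k ^ 2 ≠ ⊤ := fun h => hG.k_top (top_le_iff.mp (h ▸ hf1k))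
  have hft : fk l g k ≠ ⊤ := fun h => hf1t (top_le_iff.mp (h ▸ hff1))
  have hcop := gk_sup hG
  have h1 : (1 : 𝓞 K) ∈ l ⊔ g * k ^ 2 := by rw [hcop]; trivial
  obtain ⟨u, hu, v, hv, huv⟩ := Submodule.mem_sup.mp h1
  have hu1 : ∀ w ∈ g * k ^ 2, u * w ∈ fk l g k := fun w hw => Ideal.mul_mem_mul hu hw
  have hv1 : ∀ w ∈ l, v * w ∈ fk l g k := fun w hw => by
    rw [mul_comm]
    exact Ideal.mul_mem_mul hw hv
  let η : 𝓞 K ⧸ (g * k ^ 2) → ℂ := fun q => E1 χ (v + u * q.out)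
  have hη : ∀ a : 𝓞 K, η (Ideal.Quotient.mk (g * k ^ 2) a) = E1 χ (v + u * a) := by
    intro a
    refine E1_congr hAG χ hft ?_
    have h2 : (Ideal.Quotient.mk (g * k ^ 2) a).out - a ∈ g * k ^ 2 := by
      rw [← Ideal.Quotient.eq]
      exact Quotient.out_eq _
    have h3 : v + u * (Ideal.Quotient.mk (g * k ^ 2) a).out - (v + u * a) =
      u * ((Ideal.Quotient.mk (g * k ^ 2) a).out - a) := by ring
    rw [h3]
    exact hu1 _ h2
  have hsup : ∀ a : 𝓞 K, Ideal.span {a} ⊔ fk l g k = ⊤ → Ideal.span {a} ⊔ g * k ^ 2 = ⊤ :=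
    fun a ha => top_le_iff.mp (ha ▸ sup_le_sup_left hff1 _)
  have hvu : v = 1 - u := by rw [← huv]; ring
  have hmul : ∀ x y, η (x * y) = η x * η y := by
    intro x y
    obtain ⟨a, rfl⟩ := Ideal.Quotient.mk_surjective x
    obtain ⟨b, rfl⟩ := Ideal.Quotient.mk_surjective y
    rw [← map_mul, hη, hη, hη, ← E1_mul hAG]
    refine E1_congr hAG χ hft ?_
    have h3 : v + u * (a * b) - (v + u * a) * (v + u * b) =
      u * (v * (1 + a * b - a - b)) := by
      rw [hvu]; ring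
    rw [h3]
    exact hu1 _ (Ideal.mul_mem_right _ _ hv)
  have hone : η 1 = 1 := by
    rw [← map_one (Ideal.Quotient.mk (g * k ^ 2)), hη, mul_one, add_comm, huv, E1_one hAG]
  refine ⟨η, ⟨⟨hone, hmul, ?_, ?_⟩, ?_⟩, ?_⟩
  · -- units
    intro x hx
    obtain ⟨y, hy⟩ := hx.exists_left_inv
    have h3 : η y * η x = 1 := by rw [← hmul, hy, hone]
    have h4 : ‖η y‖ ≤ 1 := E1_norm_le hAG χ _
    have h5 : ‖η x‖ ≤ 1 := E1_norm_le hAG χ _
    have h6 : ‖η y‖ * ‖η x‖ = 1 := by rw [← norm_mul, h3, norm_one]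
    have h7 := norm_nonneg (η x)
    refine le_antisymm h5 ?_
    rw [← h6]
    exact mul_le_of_le_one_left h7 h4
  · -- non units
    intro x hx
    obtain ⟨a, rfl⟩ := Ideal.Quotient.mk_surjective x
    rw [hη]
    refine E1_of_not χ fun h => hx ?_
    have h3 := isUnit_of_sup (g * k ^ 2) _ (hsup _ h)
    have h4 : Ideal.Quotient.mk (g * k ^ 2) (v + u * a) = Ideal.Quotient.mk (g * k ^ 2) a := by
      rw [Ideal.Quotient.eq]
      have h5 : v + u * a - a = v * (1 - a) := by rw [hvu]; ring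
      rw [h5]
      exact Ideal.mul_mem_right _ _ hv
    rw [h4] at h3
    exact h3
  · -- primitive
    intro w hw
    obtain ⟨w0, rfl⟩ := Ideal.Quotient.mk_surjective w
    have hw0 : w0 ∉ g * k ^ 2 := fun h => hw (Ideal.Quotient.eq_zero_iff_mem.mpr h)
    obtain ⟨J, hJ⟩ := Ideal.dvd_iff_le.mpr (le_sup_right : g * k ^ 2 ≤
      Ideal.span {w0} ⊔ g * k ^ 2)
    have hJt : J ≠ ⊤ := by
      rintro rfl
      rw [Ideal.mul_top] at hJ
      apply hw0
      rw [hJ]
      exact (le_sup_left : Ideal.span {w0} ≤ _) (Ideal.mem_span_singleton_self w0)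
    obtain ⟨P, hPm, hJP⟩ := Ideal.exists_le_maximal J hJt
    have hPp := hPm.isPrime
    have hf1P : g * k ^ 2 ≤ P := by
      rw [hJ]
      exact Ideal.mul_le_right.trans hJP
    have hkP : k ≤ P := by
      rcases (hPp.mul_le).mp hf1P with h3 | h3
      · exact (hG.rad P hPp).mp h3
      · exact hPp.le_of_pow_le h3
    have hP0 : P ≠ ⊥ := fun h => hf1 (le_bot_iff.mp (h ▸ hf1P))
    obtain ⟨J', hJ'⟩ := Ideal.dvd_iff_le.mpr hJP
    obtain ⟨a, ha0, ha1, ha2, ha3⟩ := hP P hPp hkP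
    have h3 : Ideal.span {a - 1} * P ≤ g * k ^ 2 := by
      rw [Ideal.mul_le]
      intro r hr s hs
      obtain ⟨c, rfl⟩ := Ideal.mem_span_singleton'.mp hr
      rw [mul_assoc]
      exact Ideal.mul_mem_left _ _ (hff1 (ha2 s hs))
    have h4 : Ideal.span {a - 1} ≤ Ideal.span {w0} ⊔ g * k ^ 2 := by
      rw [← Ideal.dvd_iff_le] at h3 ⊢
      have h5 : (Ideal.span {w0} ⊔ g * k ^ 2) * J' * P ∣ Ideal.span {a - 1} * P := by
        refine dvd_trans ?_ h3
        rw [mul_assoc, mul_comm J' P, ← hJ', ← hJ]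
      have h6 := (mul_dvd_mul_iff_right (show P ≠ 0 from hP0)).mp h5
      exact dvd_trans (dvd_mul_right _ _) h6
    have h5 : a - 1 ∈ Ideal.span {w0} ⊔ g * k ^ 2 := h4 (Ideal.mem_span_singleton_self _)
    obtain ⟨x, hx, s, hs, hxs⟩ := Submodule.mem_sup.mp h5
    obtain ⟨r, rfl⟩ := Ideal.mem_span_singleton'.mp hx
    have h6 : 1 + Ideal.Quotient.mk (g * k ^ 2) r * Ideal.Quotient.mk (g * k ^ 2) w0 =
        Ideal.Quotient.mk (g * k ^ 2) a := by
      rw [← map_mul, ← map_one (Ideal.Quotient.mk (g * k ^ 2)), ← map_add, Ideal.Quotient.eq]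
      have h7 : 1 + r * w0 - a = -s := by linear_combination hxs
      rw [h7]
      exact neg_mem hs
    have hal : a - 1 ∈ l := by
      have h7 : l ⊔ P = ⊤ := top_le_iff.mp (hG.cop ▸ sup_le_sup_left hkP l)
      have h8 : (1 : 𝓞 K) ∈ l ⊔ P := by rw [h7]; trivial
      obtain ⟨s', hs', p', hp', hsp⟩ := Submodule.mem_sup.mp h8
      have h9 : a - 1 = (a - 1) * s' + (a - 1) * p' := by
        rw [← mul_add, hsp, mul_one]
      rw [h9]
      exact add_mem (Ideal.mul_mem_left _ _ hs') (hfl (ha2 p' hp'))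
    refine ⟨Ideal.Quotient.mk (g * k ^ 2) r, ?_, ?_⟩
    · rw [h6]
      exact isUnit_of_sup _ _ (hsup a ha1)
    · rw [h6, hη]
      have h7 : E1 χ (v + u * a) = E1 χ a := by
        refine E1_congr hAG χ hft ?_
        have h8 : v + u * a - a = v * -(a - 1) := by rw [hvu]; ring
        rw [h8]
        exact hv1 _ (neg_mem hal)
      rw [h7, E1_eq χ ha0]
      intro h8
      apply ha3
      unfold E0 at h8
      have h9 := ag_conj hAG χ.k (RingOfIntegers.coe_ne_zero_iff.mpr ha0)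
      have h10 := ph_conj0 χ.ν (a : K)
      linear_combination (ag χ.k (a : K) * ph χ.ν (a : K)) * h8 -
        (χ.ψ (Ideal.span {a})) * h9 - (ag χ.k (a : K) * (starRingEnd ℂ) (ag χ.k (a : K)) *
        χ.ψ (Ideal.span {a})) * h10
  · -- the coefficients
    intro M x₀ hM hGn
    obtain ⟨-, hc2, -, hc5, -, -, -, -⟩ := hCG K (fk l g k) χ M hf hM
    have hc3 := fun (a : 𝓞 K) (ha : a ≠ 0) (x : K) (hx : x ∈ M) =>
      Pool.Agent.H60.GLB.cg_mul_a hAG hID χ hf hM ha hx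
    classical
    let c : K → ℂ := fun x => if h : ∃ a : 𝓞 K, x - (a : K) * x₀ ∈ (l : FI K) * M then
      E1 χ (v * h.choose + u) * cg χ M x₀ else 0
    have hGl := gn_mono hGn hfl
    have hG1 := gn_mono hGn hff1
    have hlM : ((fk l g k : Ideal (𝓞 K)) : FI K) * M ≤ (l : FI K) * M :=
      mul_le_mul_left ((FractionalIdeal.coeIdeal_le_coeIdeal K).mpr hfl) M
    have h1M : ((fk l g k : Ideal (𝓞 K)) : FI K) * M ≤ ((g * k ^ 2 : Ideal (𝓞 K)) : FI K) * M :=
      mul_le_mul_left ((FractionalIdeal.coeIdeal_le_coeIdeal K).mpr hff1) M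
    have hc : ∀ (a : 𝓞 K) (x : K), x - (a : K) * x₀ ∈ (l : FI K) * M →
        c x = E1 χ (v * a + u) * cg χ M x₀ := by
      intro a x hx
      have hex : ∃ a : 𝓞 K, x - (a : K) * x₀ ∈ (l : FI K) * M := ⟨a, hx⟩
      change (if h : ∃ a : 𝓞 K, x - (a : K) * x₀ ∈ (l : FI K) * M then
        E1 χ (v * h.choose + u) * cg χ M x₀ else 0) = _
      rw [dif_pos hex]
      congr 1
      refine E1_congr hAG χ hft ?_
      have h3 : v * hex.choose + u - (v * a + u) = v * (hex.choose - a) := by ring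
      rw [h3]
      exact hv1 _ (gn_unique hGl hex.choose_spec hx)
    refine ⟨c, ?_, ?_, ?_⟩
    · intro x _
      change ‖(if h : ∃ a : 𝓞 K, x - (a : K) * x₀ ∈ (l : FI K) * M then
        E1 χ (v * h.choose + u) * cg χ M x₀ else 0)‖ ≤ 1
      split_ifs with h
      · rw [norm_mul]
        exact mul_le_one₀ (E1_norm_le hAG χ _) (norm_nonneg _) (hc2 x₀ hGn.mem)
      · rw [norm_zero]
        exact zero_le_one
    · intro x hx t ht
      obtain ⟨a, -, ha⟩ := hGn.gen x hx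
      have ha' := hlM ha
      rw [hc a x ha', hc a (x + t)]
      have h3 : x + t - (a : K) * x₀ = (x - (a : K) * x₀) + t := by ring
      rw [h3]
      exact ((((l : FI K) * M : FI K)) : Submodule (𝓞 K) K).add_mem ha' ht
    · intro x hx
      obtain ⟨a, ha0, ha⟩ := hGn.gen x hx
      rw [hc a x (hlM ha), cq_eq (g * k ^ 2) η hG1 a x (h1M ha), hη]
      have hax : (a : K) * x₀ ∈ M := by
        have h3 : (a : K) * x₀ = a • x₀ := by rw [Algebra.smul_def]
        rw [h3]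
        exact (M : Submodule (𝓞 K) K).smul_mem a hGn.mem
      have h3 : x = (a : K) * x₀ + (x - (a : K) * x₀) := by ring
      have h4 : cg χ M x = cg χ M ((a : K) * x₀) := by
        conv_lhs => rw [h3]
        exact hc5 _ hax _ ha
      rw [h4, hc3 a ha0 x₀ hGn.mem]
      have h5 : (starRingEnd ℂ) (ag χ.k (a : K)) * (starRingEnd ℂ) (ph χ.ν (a : K)) *
          χ.ψ (Ideal.span {a}) =
          E1 χ a := (E1_eq χ ha0).symm
      have h6 : E1 χ a = E1 χ (v * a + u) * E1 χ (v + u * a) := by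
        rw [← E1_mul hAG]
        refine E1_congr hAG χ hft ?_
        have h7 : a - (v * a + u) * (v + u * a) = u * (v * -((a - 1) ^ 2)) := by
          rw [hvu]; ring
        rw [h7]
        exact hu1 _ (Ideal.mul_mem_right _ _ hv)
      rw [h5, h6]
      ring

end Pool.Agent.H51.DW
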